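import Pool.Agent.H312.Lb.Avg

set_option autoImplicit false

/-!
# The resonance integral for almost all weights
-/

namespace Pool.Agent.H312.Lb

open Finset Filter Topology MeasureTheory Complex Set Asymptotics
open Pool.Agent.H131R5.BZ Pool.Agent.Y930.Bz Pool.Agent.Y616.BM Pool.Agent.H312.Barnes
open Pool.Agent.H312.Ex

theorem ae_bd {r d : ℕ} (B : Matrix (Fin r) (Fin d) ℝ) (e : Fin d → Fin r)
    (he : Function.Injective e) (hdet : (B.submatrix e id).det ≠ 0) {α β : ℝ} (hα : 0 < α)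
    (hαβ : α ≤ β) {σ κ : ℝ} (hσ : (r : ℝ) - d / 2 ≤ σ)
    (hκ : κ = 1 ∨ κ = 0 ∧ (r : ℝ) - d / 2 < σ) {δ : ℝ} (hδ : 0 < δ) :
    ∀ᵐ v ∂(volume.restrict (EN B α β)), ∃ C : ℝ, 0 ≤ C ∧ ∀ n : ℕ,
      FT (B.mulVec v) σ (2 ^ n) ≤
        ENNReal.ofReal (C * (((2 : ℝ) ^ n) ^ (2 * σ) * ((n : ℝ) + 1) ^ (κ + 1 + δ))) := by
  obtain ⟨C, hC, h1⟩ := avg_log B e he hdet hα hαβ hσ hκ
  set q : ℕ → ℝ := fun n => (((2 : ℝ) ^ n) ^ (2 * σ) * ((n : ℝ) + 1) ^ (κ + 1 + δ))⁻¹ with hq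
  have hq0 : ∀ n, 0 < q n := fun n => by simp only [hq]; positivity
  set F : (Fin d → ℝ) → ENNReal := fun v => ∑' n : ℕ, ENNReal.ofReal (q n) *
    FT (B.mulVec v) σ (2 ^ n) with hF
  have hFm : Measurable F := by
    refine Measurable.tsum fun n => ?_
    exact (FT_meas B σ _).const_mul _
  have hgeo : ∀ n : ℕ, q n * (C * ((2 : ℝ) ^ n) ^ (2 * σ) * ((n : ℝ) + 1) ^ κ) =
      C * (((n + 1 : ℕ) : ℝ)) ^ (-(1 + δ)) := by
    intro n
    have hn : (0 : ℝ) < (n : ℝ) + 1 := by positivity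
    have hA : (0 : ℝ) < ((2 : ℝ) ^ n) ^ (2 * σ) := by positivity
    simp only [hq]
    have e1 : ((n : ℝ) + 1) ^ (κ + 1 + δ) = ((n : ℝ) + 1) ^ κ * ((n : ℝ) + 1) ^ (1 + δ) := by
      rw [← Real.rpow_add hn]
      congr 1
      ring
    have e2 : (((n + 1 : ℕ) : ℝ)) ^ (-(1 + δ)) = (((n : ℝ) + 1) ^ (1 + δ))⁻¹ := by
      push_cast
      rw [Real.rpow_neg hn.le]
    have h3 : 0 < ((n : ℝ) + 1) ^ κ := by positivity
    have h4 : 0 < ((n : ℝ) + 1) ^ (1 + δ) := by positivity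
    rw [e1, e2]
    field_simp
  have hfin : ∫⁻ v in EN B α β, F v ≠ ⊤ := by
    have h2 : ∫⁻ v in EN B α β, F v ≤
        ∑' n : ℕ, ENNReal.ofReal (C * (((n + 1 : ℕ) : ℝ)) ^ (-(1 + δ))) := by
      rw [hF, lintegral_tsum fun n => ((FT_meas B σ _).const_mul _).aemeasurable]
      refine ENNReal.tsum_le_tsum fun n => ?_
      rw [lintegral_const_mul _ (FT_meas B σ _), ← hgeo n, ENNReal.ofReal_mul (hq0 n).le]
      gcongr
      exact h1 n
    refine ne_top_of_le_ne_top ?_ h2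
    have h3 : Summable fun n : ℕ => C * (((n + 1 : ℕ) : ℝ)) ^ (-(1 + δ)) :=
      ((summable_nat_add_iff 1).2 (Real.summable_nat_rpow.2 (by linarith))).mul_left C
    exact h3.tsum_ofReal_ne_top
  filter_upwards [ae_lt_top hFm hfin] with v hv
  refine ⟨(F v).toReal, ENNReal.toReal_nonneg, fun n => ?_⟩
  have h2 : ENNReal.ofReal (q n) * FT (B.mulVec v) σ (2 ^ n) ≤ ENNReal.ofReal (F v).toReal := by
    rw [ENNReal.ofReal_toReal hv.ne]
    exact ENNReal.le_tsum (f := fun n : ℕ => ENNReal.ofReal (q n) *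
      FT (B.mulVec v) σ (2 ^ n)) n
  set X : ℝ := ((2 : ℝ) ^ n) ^ (2 * σ) * ((n : ℝ) + 1) ^ (κ + 1 + δ) with hX
  have hX0 : 0 < X := by positivity
  have h3 : q n * X = 1 := by
    simp only [hq]
    rw [← hX]
    field_simp
  calc FT (B.mulVec v) σ (2 ^ n)
      = ENNReal.ofReal X * (ENNReal.ofReal (q n) * FT (B.mulVec v) σ (2 ^ n)) := by
        rw [← mul_assoc, ← ENNReal.ofReal_mul hX0.le, mul_comm X (q n), h3,
          ENNReal.ofReal_one, one_mul]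
    _ ≤ ENNReal.ofReal X * ENNReal.ofReal (F v).toReal := by gcongr
    _ = _ := by
        rw [← ENNReal.ofReal_mul hX0.le, mul_comm]

/-- the good parameters -/
def GoodL {d : ℕ} (v : Fin d → ℝ) : Prop :=
  ∀ (r : ℕ) (B : Fin r → Fin d → ℚ) (e : Fin d → Fin r) (N K κ : ℕ) (σ : ℚ),
    Function.Injective e → ((rm B).submatrix e id).det ≠ 0 → (r : ℝ) - d / 2 ≤ σ →
    (κ = 1 ∨ κ = 0 ∧ (r : ℝ) - d / 2 < σ) →
    v ∈ EN (rm B) (1 / (N + 1)) (N + 1) → ∃ C : ℝ, 0 ≤ C ∧ ∀ n : ℕ,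
      FT ((rm B).mulVec v) (σ : ℝ) (2 ^ n) ≤ ENNReal.ofReal (C * (((2 : ℝ) ^ n) ^ (2 * (σ : ℝ)) *
        ((n : ℝ) + 1) ^ ((κ : ℝ) + 1 + 1 / ((K : ℝ) + 1))))

theorem ae_goodL (d : ℕ) : ∀ᵐ v : Fin d → ℝ, GoodL v := by
  unfold GoodL
  simp only [ae_all_iff]
  intro r B e N K κ σ he hdet hσ hκ
  rw [← ae_restrict_iff' (EN_meas _ _ _)]
  refine ae_bd (rm B) e he hdet (by positivity) ?_ hσ ?_ (by positivity)
  · have h1 : (0 : ℝ) ≤ N := Nat.cast_nonneg N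
    rw [div_le_iff₀ (by positivity)]
    nlinarith
  · rcases hκ with h | ⟨h, h'⟩
    · exact Or.inl (by rw [h]; norm_num)
    · exact Or.inr ⟨by rw [h]; norm_num, h'⟩

variable {r : ℕ} {w : Fin r → ℝ}

lemma FT_sigma (w : Fin r → ℝ) {σ σ' T : ℝ} (hσ : σ ≤ σ') (hT : 1 ≤ T) :
    FT w σ' T ≤ ENNReal.ofReal (T ^ (2 * (σ' - σ))) * FT w σ T := by
  have hT0 : 0 < T := by linarith
  unfold FT
  rw [← lintegral_const_mul' _ _ ENNReal.ofReal_ne_top]
  refine setLIntegral_mono' measurableSet_Ioc fun ρ hρ => ?_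
  have hρ0 : 0 < ρ := by linarith [hρ.1]
  rw [← ENNReal.ofReal_mul (by positivity)]
  apply ENNReal.ofReal_le_ofReal
  have h1 : ρ ^ (2 * σ' - 1) = ρ ^ (2 * (σ' - σ)) * ρ ^ (2 * σ - 1) := by
    rw [← Real.rpow_add hρ0]
    congr 1
    ring
  have h2 : ρ ^ (2 * (σ' - σ)) ≤ T ^ (2 * (σ' - σ)) :=
    Real.rpow_le_rpow hρ0.le hρ.2 (by linarith)
  have h3 := PP_nonneg w T ρ
  rw [h1]
  calc _ ≤ T ^ (2 * (σ' - σ)) * ρ ^ (2 * σ - 1) * PP w T ρ := by gcongr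
    _ = _ := by ring

/-- from powers of two to all heights -/
lemma resR_of_dyadic (w : Fin r → ℝ) {σ σ' γ C : ℝ} (hσ0 : 0 < σ) (hσ : σ ≤ σ') (hγ : 0 ≤ γ)
    (hC : 0 ≤ C) (h : ∀ n : ℕ, FT w σ (2 ^ n) ≤
      ENNReal.ofReal (C * (((2 : ℝ) ^ n) ^ (2 * σ) * ((n : ℝ) + 1) ^ γ))) :
    (fun T : ℝ => resR w σ' T) =O[atTop] fun T : ℝ => T ^ (2 * σ' - 1 + 1) * (Real.log T) ^ γ := by
  refine IsBigO.of_bound (C * 2 ^ (2 * σ) * 5 ^ γ) ?_
  filter_upwards [eventually_ge_atTop (2 : ℝ)] with T hT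
  have hT1 : 1 ≤ T := by linarith
  have hT0 : 0 < T := by linarith
  obtain ⟨n, hn1, hn2⟩ := exists_nat_pow_near hT1 (one_lt_two)
  have hlog0 : 0 < Real.log T := Real.log_pos (by linarith)
  have hn : 1 ≤ n := by
    by_contra hcon
    have : n = 0 := by omega
    rw [this] at hn2
    norm_num at hn2
    linarith
  have hn' : (1 : ℝ) ≤ n := by exact_mod_cast hn
  have h1 : (n : ℝ) * Real.log 2 ≤ Real.log T := by
    rw [← Real.log_pow]
    exact Real.log_le_log (by positivity) hn1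
  have h2 : ((n + 1 : ℕ) : ℝ) + 1 ≤ 5 * Real.log T := by
    have h3 := Real.log_two_gt_d9
    push_cast
    nlinarith
  have h3 : ((2 : ℝ) ^ (n + 1)) ≤ 2 * T := by
    rw [pow_succ]
    linarith
  have h4 : FT w σ T ≤ ENNReal.ofReal (C * ((2 * T) ^ (2 * σ) * (5 * Real.log T) ^ γ)) := by
    calc FT w σ T ≤ FT w σ (2 ^ (n + 1)) := FT_mono w σ hn2.le
      _ ≤ _ := h (n + 1)
      _ ≤ _ := by
          apply ENNReal.ofReal_le_ofReal
          gcongr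
  have h5 : FT w σ' T ≤ ENNReal.ofReal (C * 2 ^ (2 * σ) * 5 ^ γ *
      (T ^ (2 * σ' - 1 + 1) * (Real.log T) ^ γ)) := by
    calc FT w σ' T ≤ ENNReal.ofReal (T ^ (2 * (σ' - σ))) * FT w σ T := FT_sigma w hσ hT1
      _ ≤ ENNReal.ofReal (T ^ (2 * (σ' - σ))) *
          ENNReal.ofReal (C * ((2 * T) ^ (2 * σ) * (5 * Real.log T) ^ γ)) :=
          mul_le_mul_right h4 _
      _ = _ := by
          rw [← ENNReal.ofReal_mul (by positivity)]
          congr 1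
          rw [Real.mul_rpow (by norm_num) hT0.le, Real.mul_rpow (by norm_num) hlog0.le]
          have e1 : T ^ (2 * σ' - 1 + 1) = T ^ (2 * (σ' - σ)) * T ^ (2 * σ) := by
            rw [← Real.rpow_add hT0]
            congr 1
            ring
          rw [e1]
          ring
  have h6 := ENNReal.toReal_mono ENNReal.ofReal_ne_top h5
  rw [ENNReal.toReal_ofReal (by positivity), ← resR_eq w σ' hT1] at h6
  rw [Real.norm_of_nonneg (resR_nonneg w σ' hT1), Real.norm_of_nonneg (by positivity)]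
  exact h6

/-- the resonance integral for good parameters -/
theorem resR_good {d : ℕ} {v : Fin d → ℝ} (hv : GoodL v) (hvi : LinearIndependent ℚ v)
    (hr : 1 ≤ r) (hw : ∀ j, 0 < w j)
    (hspan : Submodule.span ℚ (Set.range w) = Submodule.span ℚ (Set.range v))
    {σ δ : ℝ} (hδ : 0 < δ) :
    d ≤ r ∧ (σ = (r : ℝ) - d / 2 → (fun T : ℝ => resR w σ T) =O[atTop]
      fun T : ℝ => T ^ (2 * σ - 1 + 1) * (Real.log T) ^ (2 + δ)) ∧
    ((r : ℝ) - d / 2 < σ → (fun T : ℝ => resR w σ T) =O[atTop]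
      fun T : ℝ => T ^ (2 * σ - 1 + 1) * (Real.log T) ^ (1 + δ)) := by
  obtain ⟨B, e, he, hdet, hwB⟩ := lin hvi hspan
  have hdr : d ≤ r := by
    simpa using Fintype.card_le_of_injective e he
  have hdr' : (d : ℝ) ≤ r := by exact_mod_cast hdr
  have hr' : (1 : ℝ) ≤ r := by exact_mod_cast hr
  have hσc : 0 < (r : ℝ) - d / 2 := by linarith
  obtain ⟨K, hK⟩ := exists_nat_gt (1 / δ)
  have hKδ : 1 / ((K : ℝ) + 1) ≤ δ := by
    rw [div_le_iff₀ (by positivity)]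
    rw [div_lt_iff₀ hδ] at hK
    nlinarith
  -- the range of the weights
  obtain ⟨N, hN⟩ : ∃ N : ℕ, ∀ j, 1 / ((N : ℝ) + 1) ≤ w j ∧ w j ≤ (N : ℝ) + 1 := by
    obtain ⟨N, hN⟩ := exists_nat_ge (∑ j, (w j + 1 / w j))
    refine ⟨N, fun j => ?_⟩
    have h1 : w j + 1 / w j ≤ ∑ j, (w j + 1 / w j) :=
      Finset.single_le_sum (f := fun j => w j + 1 / w j)
        (fun i _ => by have := hw i; positivity) (Finset.mem_univ j)
    have h2 := hw j
    have h3 : 0 < 1 / w j := by positivity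
    constructor
    · rw [div_le_iff₀ (by positivity)]
      have h4 : 1 / w j ≤ (N : ℝ) + 1 := by linarith
      rw [div_le_iff₀ h2] at h4
      linarith
    · linarith
  have hEN : v ∈ EN (rm B) (1 / (N + 1)) (N + 1) := by
    intro j
    have h1 := hN j
    rw [hwB] at h1
    exact h1
  have hlogs : ∀ {x y : ℝ}, x ≤ y → (fun T : ℝ => T ^ (2 * σ - 1 + 1) * (Real.log T) ^ x)
      =O[atTop] fun T : ℝ => T ^ (2 * σ - 1 + 1) * (Real.log T) ^ y := by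
    intro x y hxy
    refine IsBigO.of_bound 1 ?_
    filter_upwards [eventually_ge_atTop (Real.exp 1)] with T hT
    have hT0 : 0 < T := (Real.exp_pos 1).trans_le hT
    have hl : 1 ≤ Real.log T := by rwa [Real.le_log_iff_exp_le hT0]
    have hl0 : 0 < Real.log T := by linarith
    rw [Real.norm_of_nonneg (by positivity), Real.norm_of_nonneg (by positivity), one_mul]
    have := Real.rpow_le_rpow_of_exponent_le hl hxy
    gcongr
  refine ⟨hdr, fun h => ?_, fun h => ?_⟩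
  · obtain ⟨q, hq⟩ : ∃ q : ℚ, (q : ℝ) = (r : ℝ) - d / 2 := ⟨(r : ℚ) - d / 2, by push_cast; ring⟩
    obtain ⟨C, hC, h1⟩ := hv r B e N K 1 q he hdet hq.ge (Or.inl rfl) hEN
    rw [← hwB, hq, ← h] at h1
    refine (resR_of_dyadic w (by rw [h]; exact hσc) le_rfl (by positivity) hC h1).trans
      (hlogs ?_)
    push_cast
    linarith
  · obtain ⟨q, hq1, hq2⟩ := exists_rat_btwn h
    obtain ⟨C, hC, h1⟩ := hv r B e N K 0 q he hdet hq1.le (Or.inr ⟨rfl, hq1⟩) hEN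
    rw [← hwB] at h1
    refine (resR_of_dyadic w (by linarith) hq2.le (by positivity) hC h1).trans
      (hlogs ?_)
    push_cast
    linarith

variable {a : ℝ} {Z : ℂ → ℂ}

/-- the mean square for good parameters -/
theorem ms_good {d : ℕ} {v : Fin d → ℝ} (hv : GoodL v) (hvi : LinearIndependent ℚ v)
    (hr : 1 ≤ r) (hw : ∀ j, 0 < w j)
    (hspan : Submodule.span ℚ (Set.range w) = Submodule.span ℚ (Set.range v)) (ha : 0 < a)
    (hZ : ∀ s ∈ Om r, DifferentiableAt ℂ Z s)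
    (hs : ∀ s : ℂ, (r : ℝ) < s.re → Z s = ∑' m : Fin r → ℕ, ((lam a w m : ℝ) : ℂ) ^ (-s))
    {σ δ : ℝ} (hδ : 0 < δ) :
    (σ = (r : ℝ) - d / 2 → (fun T : ℝ => ∫ t in (1 : ℝ)..T, ‖Z ((σ : ℂ) + (t : ℂ) * I)‖ ^ 2)
      =O[atTop] fun T : ℝ => T * (Real.log T) ^ (2 + δ)) ∧
    ((r : ℝ) - d / 2 < σ →
      (fun T : ℝ => ∫ t in (1 : ℝ)..T, ‖Z ((σ : ℂ) + (t : ℂ) * I)‖ ^ 2)
      =O[atTop] fun T : ℝ => T * (Real.log T) ^ (1 + δ)) := by
  obtain ⟨hdr, h1, h2⟩ := resR_good (σ := σ) hv hvi hr hw hspan hδ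
  have hdr' : (d : ℝ) ≤ r := by exact_mod_cast hdr
  have hr' : (1 : ℝ) ≤ r := by exact_mod_cast hr
  have key : ∀ γ : ℝ, 0 ≤ γ → 1 / 2 ≤ σ → ((fun T : ℝ => resR w σ T) =O[atTop]
      fun T : ℝ => T ^ (2 * σ - 1 + 1) * (Real.log T) ^ γ) →
      (fun T : ℝ => ∫ t in (1 : ℝ)..T, ‖Z ((σ : ℂ) + (t : ℂ) * I)‖ ^ 2)
      =O[atTop] fun T : ℝ => T * (Real.log T) ^ γ := by
    intro γ hγ hσ h
    rcases hσ.lt_or_eq with hlt | heq
    · have h3 := (crit ha hw hZ hs hlt one_pos hγ).2 h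
      simpa only [Real.rpow_one] using h3
    · have h3 := (theta_w ha hw hZ hs (by linarith : 0 < σ)).1.trans h
      rw [← heq] at h3 ⊢
      have e1 : (2 : ℝ) * (1 / 2) - 1 = 0 := by norm_num
      rw [e1] at h3
      simp only [Real.rpow_zero, one_mul, zero_add, Real.rpow_one] at h3
      exact h3
  refine ⟨fun h => key _ (by positivity) (by rw [h]; linarith) (h1 h),
    fun h => key _ (by positivity) (by linarith) (h2 h)⟩

end Pool.Agent.H312.Lb
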