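import Pool.Graph.R_seed8.Y616.BM.Ae
import Pool.Agent.H312.Ex.Crit

set_option autoImplicit false

/-!
# The average of the resonance integral over rational families of weights
-/

namespace Pool.Agent.H312.Lb

open Finset Filter Topology MeasureTheory Complex Set
open Pool.Agent.H131R5.BZ Pool.Agent.Y930.Bz Pool.Agent.Y616.BM Pool.Agent.H312.Barnes
open Pool.Agent.H312.Ex

/-- one factor -/
lemma fac_nd {b x D β : ℝ} (hb : 0 < b) (hbβ : b ≤ β) (hx : 0 < x) :
    ENNReal.ofReal (((max (nd (D * b)) x) ^ 2)⁻¹) ≤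
      ENNReal.ofReal ((2 * (β + 2 * Real.pi)) ^ 2) *
        fac b ((x : ℂ) + ((2 * Real.pi * D : ℝ) : ℂ) * I) := by
  have hp := Real.pi_pos
  unfold fac
  rw [← ENNReal.ofReal_mul (by positivity)]
  apply ENNReal.ofReal_le_ofReal
  have h1 := factor_le_nd (D := D) hb hx
  have hm : 0 < max (nd (D * b)) x := hx.trans_le (le_max_right _ _)
  have h2 : 0 < ‖1 - cexp (-(b : ℂ) * ((x : ℂ) + ((2 * Real.pi * D : ℝ) : ℂ) * I))‖ :=
    norm_pos_iff.2 (one_sub_ne hb (by simpa using hx))
  have h3 : ‖1 - cexp (-(b : ℂ) * ((x : ℂ) + ((2 * Real.pi * D : ℝ) : ℂ) * I))‖ ≤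
      2 * (β + 2 * Real.pi) * max (nd (D * b)) x := by
    refine h1.trans ?_
    gcongr
  rw [← div_eq_mul_inv, le_div_iff₀ (by positivity), inv_mul_le_iff₀ (by positivity), ← mul_pow]
  refine pow_le_pow_left₀ h2.le (h3.trans_eq ?_) 2
  ring

lemma PP_uncurry_meas {r d : ℕ} (B : Matrix (Fin r) (Fin d) ℝ) (T : ℝ) :
    Measurable fun q : (Fin d → ℝ) × ℝ => PP (B.mulVec q.1) T q.2 := by
  unfold PP
  refine Finset.measurable_fun_prod _ fun j _ => ?_
  have h0 : Measurable fun q : (Fin d → ℝ) × ℝ => B.mulVec q.1 j :=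
    (measurable_pi_apply j).comp ((mulVec_meas B).comp measurable_fst)
  have h1 : Measurable fun q : (Fin d → ℝ) × ℝ => nd (q.2 * B.mulVec q.1 j) :=
    nd_meas.comp (measurable_snd.mul h0)
  have h2 : Measurable fun q : (Fin d → ℝ) × ℝ => max (nd (q.2 * B.mulVec q.1 j)) (q.2 / T) :=
    h1.max (by fun_prop)
  exact (h2.pow_const 2).inv

lemma FT_uncurry_meas {r d : ℕ} (B : Matrix (Fin r) (Fin d) ℝ) (σ T : ℝ) :
    Measurable fun q : (Fin d → ℝ) × ℝ =>
      ENNReal.ofReal (q.2 ^ (2 * σ - 1) * PP (B.mulVec q.1) T q.2) :=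
  ((by fun_prop : Measurable fun q : (Fin d → ℝ) × ℝ => q.2 ^ (2 * σ - 1)).mul
    (PP_uncurry_meas B T)).ennreal_ofReal

lemma FT_meas {r d : ℕ} (B : Matrix (Fin r) (Fin d) ℝ) (σ T : ℝ) :
    Measurable fun v : Fin d → ℝ => FT (B.mulVec v) σ T :=
  (FT_uncurry_meas B σ T).lintegral_prod_right'

/-- the average of the resonance integral -/
theorem avg_FT {r d : ℕ} (B : Matrix (Fin r) (Fin d) ℝ) (e : Fin d → Fin r)
    (he : Function.Injective e) (hdet : (B.submatrix e id).det ≠ 0) {α β : ℝ} (hα : 0 < α)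
    (hαβ : α ≤ β) (σ : ℝ) : ∃ C : ℝ, 0 ≤ C ∧ ∀ T : ℝ, 1 ≤ T →
      ∫⁻ v in EN B α β, FT (B.mulVec v) σ T ≤ ENNReal.ofReal (C * T ^ (2 * r - d)) *
        ∫⁻ ρ in Ioc (1 : ℝ) T, ENNReal.ofReal (ρ ^ (2 * σ - 1 - (2 * r - d))) := by
  have hp := Real.pi_pos
  have hdr : d ≤ r := by
    simpa using Fintype.card_le_of_injective e he
  obtain ⟨C, hC, h1⟩ := avg_mat B e he hdet hα hαβ (y₀ := 2 * Real.pi) (by positivity)
  have hβ : 0 < β := hα.trans_le hαβ
  set M : ℝ := ((2 * (β + 2 * Real.pi)) ^ 2) ^ r with hM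
  have hM0 : 0 ≤ M := by positivity
  set p : ℕ := 2 * r - d with hpd
  have hpr : (p : ℝ) = 2 * r - d := by
    rw [hpd, Nat.cast_sub (by omega)]
    push_cast
    ring
  refine ⟨M * C * 2 ^ p, by positivity, fun T hT => ?_⟩
  have hT0 : 0 < T := by linarith
  have hin : ∀ ρ ∈ Ioc (1 : ℝ) T, ∫⁻ v in EN B α β,
      ENNReal.ofReal (ρ ^ (2 * σ - 1) * PP (B.mulVec v) T ρ) ≤
      ENNReal.ofReal (M * C * 2 ^ p * T ^ p) *
        ENNReal.ofReal (ρ ^ (2 * σ - 1 - (2 * r - d))) := by
    intro ρ hρ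
    have hρ0 : 0 < ρ := by linarith [hρ.1]
    have hx0 : 0 < ρ / T := by positivity
    have hpt : ∀ v ∈ EN B α β, ENNReal.ofReal (ρ ^ (2 * σ - 1) * PP (B.mulVec v) T ρ) ≤
        ENNReal.ofReal (ρ ^ (2 * σ - 1) * M) *
          ∏ j, fac (B.mulVec v j) (((ρ / T : ℝ) : ℂ) + ((2 * Real.pi * ρ : ℝ) : ℂ) * I) := by
      intro v hv
      have e1 : ENNReal.ofReal (PP (B.mulVec v) T ρ) ≤ ENNReal.ofReal M *
          ∏ j, fac (B.mulVec v j) (((ρ / T : ℝ) : ℂ) + ((2 * Real.pi * ρ : ℝ) : ℂ) * I) := by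
        unfold PP
        rw [ENNReal.ofReal_prod_of_nonneg (fun j _ => by positivity)]
        have e2 : ENNReal.ofReal M = ∏ _j : Fin r,
            ENNReal.ofReal ((2 * (β + 2 * Real.pi)) ^ 2) := by
          rw [Finset.prod_const, Finset.card_univ, Fintype.card_fin, hM,
            ENNReal.ofReal_pow (by positivity)]
        rw [e2, ← Finset.prod_mul_distrib]
        exact Finset.prod_le_prod' fun j _ =>
          fac_nd (hα.trans_le (hv j).1) (hv j).2 hx0
      rw [ENNReal.ofReal_mul (by positivity), ENNReal.ofReal_mul (by positivity), mul_assoc]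
      gcongr
    calc _ ≤ ∫⁻ v in EN B α β, ENNReal.ofReal (ρ ^ (2 * σ - 1) * M) *
          ∏ j, fac (B.mulVec v j) (((ρ / T : ℝ) : ℂ) + ((2 * Real.pi * ρ : ℝ) : ℂ) * I) :=
          setLIntegral_mono' (EN_meas B α β) hpt
      _ = ENNReal.ofReal (ρ ^ (2 * σ - 1) * M) * ∫⁻ v in EN B α β,
          ∏ j, fac (B.mulVec v j) (((ρ / T : ℝ) : ℂ) + ((2 * Real.pi * ρ : ℝ) : ℂ) * I) :=
          lintegral_const_mul' _ _ ENNReal.ofReal_ne_top
      _ ≤ ENNReal.ofReal (ρ ^ (2 * σ - 1) * M) *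
          ENNReal.ofReal (C * (1 + 1 / (ρ / T)) ^ (2 * r - d)) := by
          refine mul_le_mul_right (h1 (ρ / T) (2 * Real.pi * ρ) hx0 ?_) _
          nlinarith [hρ.1]
      _ ≤ _ := by
          rw [← ENNReal.ofReal_mul (by positivity), ← ENNReal.ofReal_mul (by positivity), ← hpd]
          apply ENNReal.ofReal_le_ofReal
          have e1 : 1 + 1 / (ρ / T) ≤ 2 * (T / ρ) := by
            have : 1 ≤ T / ρ := by rw [le_div_iff₀ hρ0]; linarith [hρ.2]
            rw [one_div_div]
            linarith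
          have e2 : ρ ^ (2 * σ - 1 - (2 * (r : ℝ) - d)) = ρ ^ (2 * σ - 1) / ρ ^ p := by
            rw [Real.rpow_sub hρ0, ← hpr, Real.rpow_natCast]
          rw [e2]
          calc ρ ^ (2 * σ - 1) * M * (C * (1 + 1 / (ρ / T)) ^ p) ≤
              ρ ^ (2 * σ - 1) * M * (C * (2 * (T / ρ)) ^ p) := by gcongr
            _ = _ := by
              rw [mul_pow, div_pow]
              ring
  calc ∫⁻ v in EN B α β, FT (B.mulVec v) σ T = ∫⁻ v in EN B α β, ∫⁻ ρ in Ioc (1 : ℝ) T,
        ENNReal.ofReal (ρ ^ (2 * σ - 1) * PP (B.mulVec v) T ρ) := rfl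
    _ = ∫⁻ ρ in Ioc (1 : ℝ) T, ∫⁻ v in EN B α β,
        ENNReal.ofReal (ρ ^ (2 * σ - 1) * PP (B.mulVec v) T ρ) :=
        lintegral_lintegral_swap (FT_uncurry_meas B σ T).aemeasurable
    _ ≤ ∫⁻ ρ in Ioc (1 : ℝ) T, ENNReal.ofReal (M * C * 2 ^ p * T ^ p) *
        ENNReal.ofReal (ρ ^ (2 * σ - 1 - (2 * r - d))) :=
        setLIntegral_mono' measurableSet_Ioc hin
    _ = _ := lintegral_const_mul' _ _ ENNReal.ofReal_ne_top

/-- the average with the logarithm: `κ = 1` in general, and `κ = 0` off the critical line -/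
theorem avg_log {r d : ℕ} (B : Matrix (Fin r) (Fin d) ℝ) (e : Fin d → Fin r)
    (he : Function.Injective e) (hdet : (B.submatrix e id).det ≠ 0) {α β : ℝ} (hα : 0 < α)
    (hαβ : α ≤ β) {σ κ : ℝ} (hσ : (r : ℝ) - d / 2 ≤ σ)
    (hκ : κ = 1 ∨ κ = 0 ∧ (r : ℝ) - d / 2 < σ) : ∃ C : ℝ, 0 ≤ C ∧ ∀ n : ℕ,
      ∫⁻ v in EN B α β, FT (B.mulVec v) σ (2 ^ n) ≤
        ENNReal.ofReal (C * ((2 : ℝ) ^ n) ^ (2 * σ) * ((n : ℝ) + 1) ^ κ) := by
  have hdr : d ≤ r := by
    simpa using Fintype.card_le_of_injective e he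
  obtain ⟨C, hC, h1⟩ := avg_FT B e he hdet hα hαβ σ
  set p : ℕ := 2 * r - d with hpd
  have hpr : (p : ℝ) = 2 * r - d := by
    rw [hpd, Nat.cast_sub (by omega)]
    push_cast
    ring
  rcases hκ with hκ | ⟨hκ, hσ'⟩
  · refine ⟨C, hC, fun n => ?_⟩
    set T : ℝ := (2 : ℝ) ^ n with hT
    have hT1 : 1 ≤ T := one_le_pow₀ (by norm_num)
    have hT0 : 0 < T := by linarith
    refine (h1 T hT1).trans ?_
    have h2 : ∫⁻ ρ in Ioc (1 : ℝ) T, ENNReal.ofReal (ρ ^ (2 * σ - 1 - (2 * (r : ℝ) - d))) ≤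
        ENNReal.ofReal (T ^ (2 * σ - p) * ((n : ℝ) + 1)) := by
      calc _ ≤ ∫⁻ ρ in Ioc (1 : ℝ) T, ENNReal.ofReal (T ^ (2 * σ - p)) * ENNReal.ofReal ρ⁻¹ := by
            refine setLIntegral_mono' measurableSet_Ioc fun ρ hρ => ?_
            have hρ0 : 0 < ρ := by linarith [hρ.1]
            rw [← ENNReal.ofReal_mul (by positivity)]
            apply ENNReal.ofReal_le_ofReal
            have e1 : ρ ^ (2 * σ - 1 - (2 * (r : ℝ) - d)) = ρ ^ (2 * σ - p) * ρ⁻¹ := by
              rw [← Real.rpow_neg_one, ← Real.rpow_add hρ0, hpr]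
              congr 1
              ring
            rw [e1]
            have e2 : ρ ^ (2 * σ - p) ≤ T ^ (2 * σ - p) :=
              Real.rpow_le_rpow hρ0.le hρ.2 (by rw [hpr]; linarith)
            gcongr
        _ = ENNReal.ofReal (T ^ (2 * σ - p)) * ENNReal.ofReal (∫ ρ in Ioc (1 : ℝ) T, ρ⁻¹) := by
            rw [lintegral_const_mul' _ _ ENNReal.ofReal_ne_top,
              ofReal_integral_eq_lintegral_ofReal]
            · have h8 : IntervalIntegrable (fun ρ : ℝ => ρ⁻¹) volume 1 T := by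
                refine intervalIntegral.intervalIntegrable_inv (fun x hx => ?_)
                  (by fun_prop)
                rw [Set.uIcc_of_le hT1] at hx
                have := hx.1
                positivity
              exact (intervalIntegrable_iff_integrableOn_Ioc_of_le hT1).1 h8
            · filter_upwards [self_mem_ae_restrict measurableSet_Ioc] with ρ hρ
              have hρ0 : 0 < ρ := by linarith [hρ.1]
              positivity
        _ ≤ _ := by
            rw [← intervalIntegral.integral_of_le hT1, integral_inv_of_pos one_pos hT0,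
              ← ENNReal.ofReal_mul (by positivity)]
            apply ENNReal.ofReal_le_ofReal
            have e3 : Real.log (T / 1) ≤ (n : ℝ) + 1 := by
              rw [div_one, hT, Real.log_pow]
              have h3 := Real.log_two_lt_d9
              have h4 : (0 : ℝ) ≤ n := Nat.cast_nonneg n
              nlinarith
            gcongr
    calc _ ≤ ENNReal.ofReal (C * T ^ p) * ENNReal.ofReal (T ^ (2 * σ - p) * ((n : ℝ) + 1)) :=
          mul_le_mul_right h2 _
      _ = _ := by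
          rw [← ENNReal.ofReal_mul (by positivity), hκ, Real.rpow_one]
          congr 1
          have e4 : T ^ (2 * σ) = T ^ p * T ^ (2 * σ - p) := by
            rw [← Real.rpow_natCast, ← Real.rpow_add hT0]
            congr 1
            ring
          rw [e4]
          ring
  · have hq : 0 < 2 * σ - p := by rw [hpr]; linarith
    refine ⟨C * (1 / (2 * σ - p)), by positivity, fun n => ?_⟩
    set T : ℝ := (2 : ℝ) ^ n with hT
    have hT1 : 1 ≤ T := one_le_pow₀ (by norm_num)
    have hT0 : 0 < T := by linarith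
    refine (h1 T hT1).trans ?_
    have h2 : ∫⁻ ρ in Ioc (1 : ℝ) T, ENNReal.ofReal (ρ ^ (2 * σ - 1 - (2 * (r : ℝ) - d))) ≤
        ENNReal.ofReal (T ^ (2 * σ - p) * (1 / (2 * σ - p))) := by
      calc _ = ENNReal.ofReal (∫ ρ in Ioc (1 : ℝ) T, ρ ^ (2 * σ - p - 1)) := by
            rw [ofReal_integral_eq_lintegral_ofReal]
            · refine setLIntegral_congr_fun measurableSet_Ioc fun ρ _ => ?_
              show ENNReal.ofReal _ = ENNReal.ofReal _
              congr 2
              rw [hpr]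
              ring
            · have h8 : IntervalIntegrable (fun ρ : ℝ => ρ ^ (2 * σ - p - 1)) volume 1 T :=
                intervalIntegral.intervalIntegrable_rpow' (by linarith)
              exact (intervalIntegrable_iff_integrableOn_Ioc_of_le hT1).1 h8
            · filter_upwards [self_mem_ae_restrict measurableSet_Ioc] with ρ hρ
              have hρ0 : 0 < ρ := by linarith [hρ.1]
              positivity
        _ ≤ _ := by
            rw [← intervalIntegral.integral_of_le hT1, integral_rpow (Or.inl (by linarith))]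
            apply ENNReal.ofReal_le_ofReal
            have e1 : 2 * σ - (p : ℝ) - 1 + 1 = 2 * σ - p := by ring
            rw [e1, Real.one_rpow, mul_one_div]
            gcongr
            linarith
    calc _ ≤ ENNReal.ofReal (C * T ^ p) *
          ENNReal.ofReal (T ^ (2 * σ - p) * (1 / (2 * σ - p))) := mul_le_mul_right h2 _
      _ = _ := by
          rw [← ENNReal.ofReal_mul (by positivity), hκ, Real.rpow_zero]
          congr 1
          have e4 : T ^ (2 * σ) = T ^ p * T ^ (2 * σ - p) := by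
            rw [← Real.rpow_natCast, ← Real.rpow_add hT0]
            congr 1
            ring
          rw [e4]
          ring

end Pool.Agent.H312.Lb
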